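import Mathlib

/-!
# MP_728180_al: the Jordan type never strictly dominates the contiguous partition

For every local Artinian algebra `A` over a field (Gorenstein or not) and every element `ℓ` of its
maximal ideal, the Jordan type of multiplication by `ℓ` does not strictly dominate the contiguous
partition of the Hilbert function of `A`.  So the answer to Q1 is no.
-/

namespace Pool.Agent.Results.MP_728180_al.NoStrictDominance

open IsLocalRing Finset

/-! ## Definitions -/

/-- The Hilbert function `h_i = dim_k 𝔪^i / 𝔪^{i+1}` of a local `k`-algebra `A`. -/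
noncomputable def hilb (k A : Type*) [Field k] [CommRing A] [IsLocalRing A] [Algebra k A]
    (i : ℕ) : ℕ :=
  Module.finrank k
    (↥(maximalIdeal A ^ i) ⧸ (maximalIdeal A ^ (i + 1)).submoduleOf (maximalIdeal A ^ i))

/-- The columns at which a maximal run of row `t` of the bar graph of `(H 0, …, H j)` starts. -/
def runStarts (H : ℕ → ℕ) (j t : ℕ) : Finset ℕ :=
  (range (j + 1)).filter (fun i => t ≤ H i ∧ (i = 0 ∨ H (i - 1) < t))

/-- The number of columns of the longest run of consecutive columns of row `t` of the bar graph of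
`(H 0, …, H j)` that starts at column `i`. -/
def runLength (H : ℕ → ℕ) (j t i : ℕ) : ℕ :=
  ((Icc i j).filter (fun u => ∀ w ∈ Icc i u, t ≤ H w)).card

/-- The contiguous partition `P_c(H)` of `H = (H 0, …, H j)`: the multiset of the lengths of the
maximal runs of consecutive columns in all rows `t ≥ 1` of the bar graph. -/
def contig (j : ℕ) (H : ℕ → ℕ) : Multiset ℕ :=
  ∑ t ∈ Icc 1 ((range (j + 1)).sup H), (runStarts H j t).val.map (runLength H j t)

/-- The sum of the `m` largest parts of `P`. -/
def topSum (P : Multiset ℕ) (m : ℕ) : ℕ := ((P.sort (· ≥ ·)).take m).sum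

/-- `P` dominates `Q` and `P ≠ Q`. -/
def StrictlyDominates (P Q : Multiset ℕ) : Prop := (∀ m, topSum Q m ≤ topSum P m) ∧ P ≠ Q

/-- `P` is the Jordan type of the nilpotent endomorphism `f`: there is a basis consisting of
strings `e, f e, f² e, …` whose lengths are the parts of `P`, the last element of each string being
killed by `f`. -/
def IsJordanType {k V : Type*} [Field k] [AddCommGroup V] [Module k V] (f : V →ₗ[k] V)
    (P : Multiset ℕ) : Prop :=
  ∃ (n : ℕ) (b : Fin n → ℕ) (e : Module.Basis (Σ i, Fin (b i)) k V),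
    (∀ i, 0 < b i) ∧ P = univ.val.map b ∧
    ∀ (i : Fin n) (a : Fin (b i)),
      f (e ⟨i, a⟩) = if h : (a : ℕ) + 1 < b i then e ⟨i, ⟨a + 1, h⟩⟩ else 0

/-! ## Combinatorics of partitions -/

/-- `S_k(P) = ∑ (p - k)^+`. -/
def S (k : ℕ) (P : Multiset ℕ) : ℕ := (P.map (fun p => p - k)).sum

lemma take_sum_le (k m : ℕ) (L : List ℕ) :
    (L.take m).sum ≤ (L.map (fun p => p - k)).sum + m * k := by
  induction L generalizing m with
  | nil => simp
  | cons a L ih =>
    cases m with
    | zero => simp
    | succ m =>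
      have := ih m
      simp only [List.take_succ_cons, List.sum_cons, List.map_cons]
      have h2 : (m + 1) * k = m * k + k := by ring
      omega

lemma take_sum_eq (k : ℕ) (L : List ℕ) (hL : L.Pairwise (· ≥ ·)) :
    (L.take (L.countP (fun p => k < p))).sum
      = (L.map (fun p => p - k)).sum + (L.countP (fun p => k < p)) * k := by
  induction L with
  | nil => simp
  | cons a L ih =>
    rw [List.pairwise_cons] at hL
    by_cases h : k < a
    · have := ih hL.2
      rw [List.countP_cons_of_pos (by simpa using h)]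
      simp only [List.take_succ_cons, List.sum_cons, List.map_cons]
      rw [this]
      have h2 : (L.countP (fun p => k < p) + 1) * k = (L.countP (fun p => k < p)) * k + k := by ring
      omega
    · have h0 : L.countP (fun p => decide (k < p)) = 0 := by
        rw [List.countP_eq_zero]
        intro x hx
        have := hL.1 x hx
        simp only [decide_eq_true_eq]
        omega
      rw [List.countP_cons_of_neg (by simpa using h), h0]
      have h1 : (L.map (fun p => p - k)).sum = 0 := by
        rw [List.sum_eq_zero]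
        intro x hx
        rw [List.mem_map] at hx
        obtain ⟨y, hy, rfl⟩ := hx
        have := hL.1 y hy
        omega
      simp only [List.take_zero, List.sum_nil, List.map_cons, List.sum_cons, h1]
      omega

lemma S_le_of_dominates {P Q : Multiset ℕ} (h : ∀ m, topSum Q m ≤ topSum P m) (k : ℕ) :
    S k Q ≤ S k P := by
  have hQ : S k Q = ((Q.sort (· ≥ ·)).map (fun p => p - k)).sum := by
    unfold S
    conv_lhs => rw [← Multiset.sort_eq Q (· ≥ ·)]
    rw [Multiset.map_coe, Multiset.sum_coe]
  have hP : S k P = ((P.sort (· ≥ ·)).map (fun p => p - k)).sum := by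
    unfold S
    conv_lhs => rw [← Multiset.sort_eq P (· ≥ ·)]
    rw [Multiset.map_coe, Multiset.sum_coe]
  set m := (Q.sort (· ≥ ·)).countP (fun p => k < p) with hm
  have h1 := h m
  have h2 : topSum Q m = S k Q + m * k := by
    rw [hQ]; exact take_sum_eq k _ (Multiset.pairwise_sort Q (· ≥ ·))
  have h3 : topSum P m ≤ S k P + m * k := by
    rw [hP]; exact take_sum_le k m _
  omega

lemma S_cons (k a : ℕ) (P : Multiset ℕ) : S k (a ::ₘ P) = (a - k) + S k P := by
  simp [S]

lemma S_count (P : Multiset ℕ) (x : ℕ) :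
    S x P + S (x + 2) P = 2 * S (x + 1) P + P.count (x + 1) := by
  induction P using Multiset.induction with
  | empty => simp [S]
  | cons a P ih =>
    rw [S_cons, S_cons, S_cons]
    by_cases h : x + 1 = a
    · subst h
      rw [Multiset.count_cons_self]
      omega
    · rw [Multiset.count_cons_of_ne h]
      omega

lemma eq_of_S {P Q : Multiset ℕ} (hP : 0 ∉ P) (hQ : 0 ∉ Q) (h : ∀ k, S k P = S k Q) : P = Q := by
  ext x
  cases x with
  | zero => rw [Multiset.count_eq_zero_of_notMem hP, Multiset.count_eq_zero_of_notMem hQ]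
  | succ x =>
    have h1 := S_count P x
    have h2 := S_count Q x
    rw [h, h, h] at h1
    omega

/-! ## Runs -/

lemma runLength_of_lt {H : ℕ → ℕ} {j t i : ℕ} (h : H i < t) : runLength H j t i = 0 := by
  unfold runLength
  rw [card_eq_zero, filter_eq_empty_iff]
  intro u hu hw
  have := hw i (by simp only [mem_Icc] at hu ⊢; omega)
  omega

lemma runLength_of_gt {H : ℕ → ℕ} {j t i : ℕ} (h : j < i) : runLength H j t i = 0 := by
  unfold runLength
  rw [Icc_eq_empty (by omega)]
  simp

lemma runLength_succ {H : ℕ → ℕ} {j t i : ℕ} (hi : i ≤ j) (h : t ≤ H i) :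
    runLength H j t i = runLength H j t (i + 1) + 1 := by
  unfold runLength
  have : (Icc i j).filter (fun u => ∀ w ∈ Icc i u, t ≤ H w)
      = insert i (filter (fun u : ℕ => ∀ w ∈ Icc (i + 1) u, t ≤ H w) (Icc (i + 1) j)) := by
    ext u
    simp only [mem_filter, mem_Icc, mem_insert]
    constructor
    · rintro ⟨⟨h1, h2⟩, h3⟩
      by_cases hu : u = i
      · exact Or.inl hu
      · exact Or.inr ⟨⟨by omega, h2⟩, fun w hw => h3 w ⟨by omega, hw.2⟩⟩
    · rintro (rfl | ⟨⟨h1, h2⟩, h3⟩)
      · refine ⟨⟨le_rfl, hi⟩, fun w hw => ?_⟩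
        have : w = u := by omega
        subst this; exact h
      · refine ⟨⟨by omega, h2⟩, fun w hw => ?_⟩
        by_cases hwi : w = i
        · subst hwi; exact h
        · exact h3 w ⟨by omega, hw.2⟩
  rw [this, card_insert_of_notMem]
  simp only [mem_filter, mem_Icc, not_and]
  intro h1; omega

lemma row_sum (H : ℕ → ℕ) (j t k a : ℕ) (ha : a ≤ j + 1) :
    ∑ i ∈ range a, (if t ≤ H i ∧ (i = 0 ∨ H (i - 1) < t) then runLength H j t i - k else 0)
      = ∑ i ∈ range a, (if k < runLength H j t i then 1 else 0)
        + (if 1 ≤ a ∧ t ≤ H (a - 1) then runLength H j t a - k else 0) := by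
  induction a with
  | zero => simp
  | succ a ih =>
    rw [sum_range_succ, sum_range_succ, ih (by omega)]
    by_cases h : t ≤ H a
    · have hs := runLength_succ (i := a) (j := j) (by omega) h
      by_cases h1 : 1 ≤ a ∧ t ≤ H (a - 1)
      · have hn : ¬ (t ≤ H a ∧ (a = 0 ∨ H (a - 1) < t)) := by omega
        have h3 : 1 ≤ a + 1 ∧ t ≤ H (a + 1 - 1) := ⟨by omega, by simpa using h⟩
        rw [if_pos h1, if_neg hn, if_pos h3]
        by_cases h4 : k < runLength H j t a
        · rw [if_pos h4]; omega
        · rw [if_neg h4]; omega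
      · have hn : (t ≤ H a ∧ (a = 0 ∨ H (a - 1) < t)) := by omega
        have h3 : 1 ≤ a + 1 ∧ t ≤ H (a + 1 - 1) := ⟨by omega, by simpa using h⟩
        rw [if_neg h1, if_pos hn, if_pos h3]
        by_cases h4 : k < runLength H j t a
        · rw [if_pos h4]; omega
        · rw [if_neg h4]; omega
    · have h0 : runLength H j t a = 0 := runLength_of_lt (by omega)
      have hn : ¬ (t ≤ H a ∧ (a = 0 ∨ H (a - 1) < t)) := by omega
      have h3 : ¬ (1 ≤ a + 1 ∧ t ≤ H (a + 1 - 1)) := by
        intro h5; exact h (by simpa using h5.2)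
      rw [if_neg hn, if_neg h3, h0]
      simp

lemma lt_runLength {H : ℕ → ℕ} {j t i k : ℕ} (hk : i + k ≤ j)
    (h : ∀ w, i ≤ w → w ≤ i + k → t ≤ H w) : k < runLength H j t i := by
  unfold runLength
  have : Icc i (i + k) ⊆ (Icc i j).filter (fun u => ∀ w ∈ Icc i u, t ≤ H w) := by
    intro u hu
    simp only [mem_filter, mem_Icc] at hu ⊢
    exact ⟨⟨hu.1, by omega⟩, fun w hw => h w hw.1 (by omega)⟩
  have := card_le_card this
  rw [Nat.card_Icc] at this
  omega

lemma S_contig (H : ℕ → ℕ) (j k : ℕ) :
    S k (contig j H) = ∑ t ∈ Icc 1 ((range (j + 1)).sup H), ∑ i ∈ range (j + 1),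
      (if k < runLength H j t i then 1 else 0) := by
  have h1 : S k (contig j H) = ∑ t ∈ Icc 1 ((range (j + 1)).sup H),
      S k ((runStarts H j t).val.map (runLength H j t)) := by
    unfold contig
    have : ∀ (s : Finset ℕ) (g : ℕ → Multiset ℕ), S k (∑ t ∈ s, g t) = ∑ t ∈ s, S k (g t) := by
      intro s g
      induction s using Finset.induction_on with
      | empty => simp [S]
      | insert a s ha ih =>
        rw [sum_insert ha, sum_insert ha, ← ih]
        simp [S]
    exact this _ _
  rw [h1]
  refine sum_congr rfl fun t _ => ?_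
  have h2 : S k ((runStarts H j t).val.map (runLength H j t))
      = ∑ i ∈ runStarts H j t, (runLength H j t i - k) := by
    simp only [S, Multiset.map_map, Function.comp_def]
    rfl
  rw [h2, runStarts, sum_filter, row_sum H j t k (j + 1) le_rfl]
  rw [runLength_of_gt (i := j + 1) (by omega)]
  simp

/-- Lower bound of `S_k(P_c(H))` by minima over windows. -/
lemma S_contig_ge (H : ℕ → ℕ) (j k : ℕ) (w : ℕ → ℕ)
    (hw : ∀ i, i + k ≤ j → ∀ u, i ≤ u → u ≤ i + k → w i ≤ H u) :
    ∑ i ∈ range (j + 1 - k), w i ≤ S k (contig j H) := by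
  rw [S_contig, sum_comm]
  have hsub : range (j + 1 - k) ⊆ range (j + 1) := range_subset_range.2 (by omega)
  refine le_trans ?_ (sum_le_sum_of_subset hsub)
  refine sum_le_sum fun i hi => ?_
  rw [mem_range] at hi
  rw [← card_filter]
  have : Icc 1 (w i) ⊆ (Icc 1 ((range (j + 1)).sup H)).filter (fun t => k < runLength H j t i) := by
    intro t ht
    rw [mem_filter, mem_Icc]
    rw [mem_Icc] at ht
    refine ⟨⟨ht.1, ?_⟩, ?_⟩
    · refine le_trans ht.2 (le_trans (hw i (by omega) i le_rfl (by omega)) ?_)
      exact le_sup (f := H) (mem_range.2 (by omega))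
    · exact lt_runLength (by omega) fun u h1 h2 => le_trans ht.2 (hw i (by omega) u h1 h2)
  have := card_le_card this
  rw [Nat.card_Icc] at this
  omega

lemma zero_notMem_contig (H : ℕ → ℕ) (j : ℕ) : 0 ∉ contig j H := by
  unfold contig
  rw [Multiset.mem_sum]
  rintro ⟨t, ht, h⟩
  rw [Multiset.mem_map] at h
  obtain ⟨i, hi, h0⟩ := h
  have hi' : i ∈ runStarts H j t := hi
  simp only [runStarts, mem_filter, mem_range] at hi'
  have := runLength_succ (i := i) (j := j) (H := H) (t := t) (by omega) hi'.2.1
  omega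

/-- The statement example. -/
example : contig 4 (fun i => [1, 3, 5, 2, 3].getD i 0) = {5, 4, 2, 1, 1, 1} := by decide

/-! ## Linear algebra -/

section lin
variable {k V : Type*} [Field k] [AddCommGroup V] [Module k V] [Module.Finite k V]

lemma finrank_map_add_ker (f : V →ₗ[k] V) (U : Submodule k V) :
    Module.finrank k (U.map f) + Module.finrank k (U ⊓ LinearMap.ker f : Submodule k V)
      = Module.finrank k U := by
  have h1 := LinearMap.finrank_range_add_finrank_ker (f.domRestrict U)
  have h2 : LinearMap.range (f.domRestrict U) = U.map f := by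
    ext x; simp [Submodule.mem_map]
  have h3 : Module.finrank k (LinearMap.ker (f.domRestrict U))
      = Module.finrank k (U ⊓ LinearMap.ker f : Submodule k V) := by
    have h4 : LinearMap.ker (f.domRestrict U) = (LinearMap.ker f).comap U.subtype := by
      ext x; simp
    rw [h4, ← Submodule.map_comap_subtype U (LinearMap.ker f),
      Submodule.finrank_map_subtype_eq]
  rw [h2, h3] at h1
  exact h1

lemma finrank_map_le_of_le (f : V →ₗ[k] V) {W U : Submodule k V} (h : W ≤ U) :
    Module.finrank k (U.map f) + Module.finrank k W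
      ≤ Module.finrank k U + Module.finrank k (W.map f) := by
  have h1 := finrank_map_add_ker f U
  have h2 := finrank_map_add_ker f W
  have h3 : Module.finrank k (W ⊓ LinearMap.ker f : Submodule k V)
      ≤ Module.finrank k (U ⊓ LinearMap.ker f : Submodule k V) :=
    Submodule.finrank_mono (inf_le_inf_right _ h)
  omega

lemma finrank_map_sup (f : V →ₗ[k] V) (U W : Submodule k V) :
    Module.finrank k (U.map f) + Module.finrank k W
      ≤ Module.finrank k (U ⊔ W : Submodule k V)
        + Module.finrank k ((U ⊓ W : Submodule k V).map f) := by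
  have h1 := finrank_map_le_of_le f (inf_le_left : U ⊓ W ≤ U)
  have h2 := Submodule.finrank_sup_add_finrank_inf_eq U W
  omega

lemma S_le_finrank (f : V →ₗ[k] V) {P : Multiset ℕ} (hP : IsJordanType f P) (m : ℕ) :
    S m P ≤ Module.finrank k (LinearMap.range (f ^ m)) := by
  obtain ⟨n, b, e, hb, rfl, hf⟩ := hP
  have hpow : ∀ (m : ℕ) (i : Fin n) (a : Fin (b i)) (h : (a : ℕ) + m < b i),
      (f ^ m) (e ⟨i, a⟩) = e ⟨i, ⟨a + m, h⟩⟩ := by
    intro m
    induction m with
    | zero => intro i a h; simp
    | succ m ih =>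
      intro i a h
      rw [pow_succ', Module.End.mul_apply, ih i a (by omega), hf, dif_pos (by simpa using by omega)]
      rfl
  let T : Finset (Σ i, Fin (b i)) := univ.filter (fun x => m ≤ (x.2 : ℕ))
  have hT : S m (univ.val.map b) = T.card := by
    have h1 : S m (univ.val.map b) = ∑ i, (b i - m) := by
      simp only [S, Multiset.map_map, Function.comp_def]
      rfl
    rw [h1]
    have h2 : T = univ.sigma (fun i => univ.filter (fun a : Fin (b i) => m ≤ (a : ℕ))) := by
      ext x; simp [T]
    rw [h2, card_sigma]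
    refine sum_congr rfl fun i _ => ?_
    have h3 : (univ.filter (fun a : Fin (b i) => m ≤ (a : ℕ))).card
        = ((range (b i)).filter (fun a => m ≤ a)).card := by
      rw [card_filter, card_filter]
      exact Fin.sum_univ_eq_sum_range (fun a => if m ≤ a then 1 else 0) (b i)
    rw [h3]
    have h4 : (range (b i)).filter (fun a => m ≤ a) = Ico m (b i) := by
      ext a; simp only [mem_filter, mem_range, mem_Ico]; omega
    rw [h4, Nat.card_Ico]
  rw [hT]
  have hli : LinearIndependent k (fun x : T => e x) :=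
    e.linearIndependent.comp _ Subtype.val_injective
  have h5 : T.card = Module.finrank k (Submodule.span k (Set.range (fun x : T => e x))) := by
    rw [finrank_span_eq_card hli]; simp
  rw [h5]
  apply Submodule.finrank_mono
  rw [Submodule.span_le]
  rintro _ ⟨⟨⟨i, a⟩, hx⟩, rfl⟩
  have hx' : m ≤ (a : ℕ) := by simpa [T] using hx
  refine ⟨e ⟨i, ⟨a - m, by omega⟩⟩, ?_⟩
  rw [hpow m i _ (by simp only; omega)]
  congr 1
  simp only [Sigma.mk.injEq, heq_eq_eq, true_and]
  ext; simp only; omega

end lin

/-! ## The filtration by powers of the maximal ideal -/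

section filt
variable (k A : Type*) [Field k] [CommRing A] [IsLocalRing A] [Algebra k A]

/-- `𝔪^i` as a `k`-subspace. -/
noncomputable def M (i : ℕ) : Submodule k A := (maximalIdeal A ^ i).restrictScalars k

/-- `dim_k 𝔪^i`. -/
noncomputable def c (i : ℕ) : ℕ := Module.finrank k (M k A i)

lemma mem_M (i : ℕ) (x : A) : x ∈ M k A i ↔ x ∈ maximalIdeal A ^ i := Iff.rfl

lemma M_zero : M k A 0 = ⊤ := by
  ext x; simp [mem_M]

lemma M_anti {i j : ℕ} (h : i ≤ j) : M k A j ≤ M k A i := fun _ hx => Ideal.pow_le_pow_right h hx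

variable [Module.Finite k A]

lemma hilb_add (i : ℕ) : hilb k A i + c k A (i + 1) = c k A i := by
  have h1 := Submodule.finrank_quotient_add_finrank
    (((maximalIdeal A ^ (i + 1)).submoduleOf (maximalIdeal A ^ i)).restrictScalars k)
  have h2 : Module.finrank k (↥(maximalIdeal A ^ i) ⧸
      ((maximalIdeal A ^ (i + 1)).submoduleOf (maximalIdeal A ^ i)).restrictScalars k)
      = hilb k A i :=
    (Submodule.Quotient.restrictScalarsEquiv k
      ((maximalIdeal A ^ (i + 1)).submoduleOf (maximalIdeal A ^ i))).finrank_eq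
  have h3 : Module.finrank k
      (((maximalIdeal A ^ (i + 1)).submoduleOf (maximalIdeal A ^ i)).restrictScalars k)
      = c k A (i + 1) := by
    let φ : ↥(((maximalIdeal A ^ (i + 1)).submoduleOf (maximalIdeal A ^ i)).restrictScalars k)
        ≃ₗ[k] ↥(M k A (i + 1)) :=
      { toFun := fun x => ⟨x.1.1, x.2⟩
        map_add' := fun _ _ => rfl
        map_smul' := fun _ _ => rfl
        invFun := fun y => ⟨⟨y.1, Ideal.pow_le_pow_right (Nat.le_succ i) y.2⟩, y.2⟩
        left_inv := fun _ => rfl
        right_inv := fun _ => rfl }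
    exact φ.finrank_eq
  rw [h2, h3] at h1
  exact h1

lemma c_anti {i j : ℕ} (h : i ≤ j) : c k A j ≤ c k A i := Submodule.finrank_mono (M_anti k A h)

lemma sum_hilb (t : ℕ) : ∑ i ∈ range t, hilb k A i + c k A t = c k A 0 := by
  induction t with
  | zero => simp
  | succ t ih =>
    rw [sum_range_succ]
    have := hilb_add k A t
    omega

variable {A}

omit [Module.Finite k A] in
lemma map_M_le {l : A} (hl : l ∈ maximalIdeal A) (i m : ℕ) :
    (M k A i).map (LinearMap.mulLeft k l ^ m) ≤ M k A (i + m) := by
  rw [LinearMap.pow_mulLeft]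
  rintro _ ⟨x, hx, rfl⟩
  rw [LinearMap.mulLeft_apply, mem_M, add_comm, pow_add]
  exact Ideal.mul_mem_mul (Ideal.pow_mem_pow hl m) hx

lemma rank_le {l : A} (hl : l ∈ maximalIdeal A) (m t : ℕ) :
    Module.finrank k (LinearMap.range (LinearMap.mulLeft k l ^ m)) + c k A t
      ≤ c k A 0 + c k A (t + m) := by
  have h1 := finrank_map_le_of_le (LinearMap.mulLeft k l ^ m) (M_anti k A (Nat.zero_le t))
  have h2 : Module.finrank k ((M k A t).map (LinearMap.mulLeft k l ^ m)) ≤ c k A (t + m) :=
    Submodule.finrank_mono (map_M_le k hl t m)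
  have h3 : (M k A 0).map (LinearMap.mulLeft k l ^ m)
      = LinearMap.range (LinearMap.mulLeft k l ^ m) := by
    rw [M_zero, Submodule.map_top]
  rw [h3] at h1
  unfold c at *
  omega

/-- If `ℓ 𝔪^{v-1} + 𝔪^{v+1} = 𝔪^v`, the Hilbert function does not increase from `v` on. -/
lemma antitone_of_surj {l : A} (hl : l ∈ maximalIdeal A) (v : ℕ)
    (h : M k A (v + 1) ≤ (M k A v).map (LinearMap.mulLeft k l) ⊔ M k A (v + 2)) {q : ℕ}
    (hq : v + 1 ≤ q) : hilb k A q ≤ hilb k A (v + 1) := by
  have : IsNoetherian k A := inferInstance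
  have : IsNoetherianRing A := isNoetherian_of_tower k inferInstance
  have h1 : maximalIdeal A ^ (v + 1) ≤ Ideal.span {l} * maximalIdeal A ^ v := by
    refine Submodule.le_of_le_smul_of_le_jacobson_bot
      (I := maximalIdeal A) (IsNoetherian.noetherian _)
      (IsLocalRing.maximalIdeal_le_jacobson _) ?_
    intro x hx
    have hx' := h ((mem_M k A _ _).2 hx)
    rw [Submodule.mem_sup] at hx'
    obtain ⟨y, hy, z, hz, rfl⟩ := hx'
    obtain ⟨w, hw, rfl⟩ := hy
    refine Submodule.add_mem_sup ?_ ?_
    · exact Ideal.mul_mem_mul (Ideal.mem_span_singleton_self l) hw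
    · rw [smul_eq_mul, ← pow_succ']
      exact hz
  have h2 : ∀ i, v ≤ i → M k A (i + 1) = (M k A i).map (LinearMap.mulLeft k l) := by
    intro i hi
    apply le_antisymm
    · intro x hx
      rw [mem_M] at hx
      obtain ⟨d, rfl⟩ := Nat.exists_eq_add_of_le hi
      have hx2 : x ∈ Ideal.span {l} * maximalIdeal A ^ (v + d) := by
        have h3 : maximalIdeal A ^ (v + d + 1) = maximalIdeal A ^ (v + 1) * maximalIdeal A ^ d := by
          rw [← pow_add]; congr 1; omega
        rw [h3] at hx
        rw [pow_add, ← mul_assoc]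
        exact Ideal.mul_mono_left h1 hx
      rw [Ideal.mem_span_singleton_mul] at hx2
      obtain ⟨z, hz, rfl⟩ := hx2
      exact ⟨z, hz, rfl⟩
    · have := map_M_le k hl i 1
      rwa [pow_one] at this
  have h3 : ∀ i, v ≤ i → hilb k A (i + 1) ≤ hilb k A i := by
    intro i hi
    have h4 := finrank_map_le_of_le (LinearMap.mulLeft k l) (M_anti k A (Nat.le_succ i))
    rw [← h2 i hi, Nat.succ_eq_add_one, ← h2 (i + 1) (by omega)] at h4
    have h5 := hilb_add k A i
    have h6 := hilb_add k A (i + 1)
    unfold c at *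
    omega
  have h7 : ∀ d, hilb k A (v + 1 + d) ≤ hilb k A (v + 1) := by
    intro d
    induction d with
    | zero => exact le_rfl
    | succ d ih => exact le_trans (h3 (v + 1 + d) (by omega)) ih
  obtain ⟨d, rfl⟩ := Nat.exists_eq_add_of_le hq
  exact h7 d

/-- The strict rank inequality across a valley. -/
lemma rank_lt {l : A} (hl : l ∈ maximalIdeal A) {s v e q : ℕ} (hs : s ≤ v) (he : v + 1 ≤ e)
    (hq : v + 1 ≤ q) (h : hilb k A (v + 1) < hilb k A q) :
    Module.finrank k (LinearMap.range (LinearMap.mulLeft k l ^ (e - s))) + c k A s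
      + c k A (v + 2) + 1 ≤ c k A 0 + c k A (v + 1) + c k A (e + 1) := by
  set L := LinearMap.mulLeft k l with hL
  have h1 := finrank_map_le_of_le (L ^ (e - s)) (M_anti k A (Nat.zero_le s))
  have h3 : (M k A 0).map (L ^ (e - s)) = LinearMap.range (L ^ (e - s)) := by
    rw [M_zero, Submodule.map_top]
  rw [h3] at h1
  set U := (M k A v).map L with hU
  have h4 : (M k A s).map (L ^ (e - s)) ≤ U.map (L ^ (e - (v + 1))) := by
    have h5 : e - s = (e - (v + 1)) + 1 + (v - s) := by omega
    rw [h5, pow_add, pow_succ, Module.End.mul_eq_comp, Module.End.mul_eq_comp,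
      Submodule.map_comp, Submodule.map_comp]
    refine Submodule.map_mono (Submodule.map_mono ?_)
    have := map_M_le k hl s (v - s)
    rwa [Nat.add_sub_cancel' hs] at this
  have h6 := finrank_map_sup (L ^ (e - (v + 1))) U (M k A (v + 2))
  have h7 : (U ⊓ M k A (v + 2)).map (L ^ (e - (v + 1))) ≤ M k A (e + 1) := by
    refine le_trans (Submodule.map_mono inf_le_right) ?_
    have := map_M_le k hl (v + 2) (e - (v + 1))
    have h8 : v + 2 + (e - (v + 1)) = e + 1 := by omega
    rwa [h8] at this
  have h9 : U ⊔ M k A (v + 2) ≤ M k A (v + 1) := by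
    refine sup_le ?_ (M_anti k A (by omega))
    have := map_M_le k hl v 1
    rwa [pow_one] at this
  have h10 : U ⊔ M k A (v + 2) < M k A (v + 1) := by
    refine lt_of_le_not_ge h9 fun h11 => ?_
    have := antitone_of_surj k hl v h11 hq
    omega
  have h12 := Submodule.finrank_lt_finrank_of_lt h10
  have h13 := Submodule.finrank_mono h7
  have h14 := Submodule.finrank_mono h4
  unfold c
  omega

end filt

/-! ## The two cases -/

/-- A valley of the sequence `H`. -/
def IsValley (H : ℕ → ℕ) (v : ℕ) : Prop := ∃ p q, p < v ∧ v < q ∧ H v < H p ∧ H v < H q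

/-- Unimodal case: every rank is at most the number given by `P_c(H)`. -/
lemma unimodal_bound (H : ℕ → ℕ) (j m : ℕ) (h0 : ∀ i, j < i → H i = 0)
    (hv : ∀ v, ¬ IsValley H v) :
    ∃ t, ∑ i ∈ range t, H i + ∑ i ∈ Ico (t + m) (j + 1), H i ≤ S m (contig j H) := by
  classical
  have hw := S_contig_ge H j m (fun i => min (H i) (H (i + m))) (by
    intro i _ u h1 h2
    by_contra hlt
    rw [not_le] at hlt
    have h3 : H u < H i := lt_of_lt_of_le hlt (min_le_left _ _)
    have h4 : H u < H (i + m) := lt_of_lt_of_le hlt (min_le_right _ _)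
    have h5 : i ≠ u := by rintro rfl; exact lt_irrefl _ h3
    have h6 : u ≠ i + m := by rintro rfl; exact lt_irrefl _ h4
    exact hv u ⟨i, i + m, by omega, by omega, h3, h4⟩)
  have hsum : ∑ i ∈ range (j + 1 - m), min (H i) (H (i + m))
      = ∑ i ∈ range (j + 1), min (H i) (H (i + m)) := by
    apply sum_subset (range_subset_range.2 (by omega))
    intro i _ hi
    rw [mem_range, not_lt] at hi
    rw [h0 (i + m) (by omega)]
    simp
  rw [hsum] at hw
  have ht : ∃ t, t ≤ j + 1 ∧ (∀ i, i < t → H i ≤ H (i + m)) ∧ (∀ i, t ≤ i → H (i + m) ≤ H i) := by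
    by_cases hex : ∃ i, H (i + m) < H i
    · refine ⟨Nat.find hex, ?_, ?_, ?_⟩
      · have := Nat.find_spec hex
        by_contra hlt
        rw [h0 (Nat.find hex) (by omega)] at this
        omega
      · intro i hi
        have := Nat.find_min hex hi
        omega
      · intro i hi
        have h1 := Nat.find_spec hex
        set t := Nat.find hex with htdef
        by_contra hlt
        rw [not_le] at hlt
        have h2 : i ≠ t := by rintro rfl; omega
        have h3 : m ≠ 0 := by rintro rfl; simp at hlt
        by_cases h4 : H i < H t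
        · exact hv i ⟨t, i + m, by omega, by omega, h4, hlt⟩
        · exact hv (t + m) ⟨t, i + m, by omega, by omega, h1, by omega⟩
    · push Not at hex
      refine ⟨j + 1, le_rfl, fun i _ => hex i, fun i hi => ?_⟩
      rw [h0 (i + m) (by omega)]
      exact Nat.zero_le _
  obtain ⟨t, ht1, ht2, ht3⟩ := ht
  refine ⟨t, le_trans ?_ hw⟩
  rw [← sum_range_add_sum_Ico _ ht1]
  refine Nat.add_le_add (sum_le_sum fun i hi => ?_) ?_
  · rw [mem_range] at hi
    exact le_min le_rfl (ht2 i hi)
  · have h1 : ∑ i ∈ Ico t (j + 1), min (H i) (H (i + m)) = ∑ i ∈ Ico t (j + 1), H (i + m) := by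
      refine sum_congr rfl fun i hi => ?_
      rw [mem_Ico] at hi
      exact min_eq_right (ht3 i hi.1)
    rw [h1, sum_Ico_add' H t (j + 1) m]
    exact sum_le_sum_of_subset (Ico_subset_Ico le_rfl (by omega))

/-- Nonunimodal case. -/
lemma valley_bound (H : ℕ → ℕ) (j : ℕ) (h0 : ∀ i, j < i → H i = 0)
    (hv : ∃ v, IsValley H v) :
    ∃ s v e q, s ≤ v ∧ v + 1 ≤ e ∧ v + 1 ≤ q ∧ H (v + 1) < H q ∧
      ∑ i ∈ range s, H i + H (v + 1) + ∑ i ∈ Ico (e + 1) (j + 1), H i
        ≤ S (e - s) (contig j H) := by
  classical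
  obtain ⟨v0, hv0, hmin⟩ : ∃ v0, IsValley H v0 ∧ ∀ v, IsValley H v → H v0 ≤ H v := by
    have hex : ∃ n, ∃ v, IsValley H v ∧ H v = n := by
      obtain ⟨v, hv⟩ := hv
      exact ⟨_, v, hv, rfl⟩
    obtain ⟨v, h1, h2⟩ := Nat.find_spec hex
    refine ⟨v, h1, fun w hw => ?_⟩
    rw [h2]
    exact Nat.find_min' hex ⟨w, hw, rfl⟩
  obtain ⟨p, q, hp, hq, hHp, hHq⟩ := hv0
  set m := H v0 with hm
  have hexs : ∃ i, m ≤ H i := ⟨v0, le_rfl⟩
  set s := Nat.find hexs with hs
  have hs1 : m ≤ H s := Nat.find_spec hexs
  have hs2 : ∀ i, i < s → H i < m := fun i hi => by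
    have := Nat.find_min hexs hi
    omega
  have hqj : q ≤ j := by
    by_contra hlt
    rw [h0 q (by omega)] at hHq
    omega
  have hsp : s ≤ p := Nat.find_min' hexs (by omega)
  set e := Nat.findGreatest (fun i => m ≤ H i) j with he
  have he1 : m ≤ H e := Nat.findGreatest_spec (P := fun i => m ≤ H i) hqj (by omega)
  have he2 : q ≤ e := Nat.le_findGreatest hqj (by omega)
  have he3 : e ≤ j := Nat.findGreatest_le j
  have he4 : ∀ i, e < i → i ≤ j → H i < m := fun i h1 h2 => by
    have := Nat.findGreatest_is_greatest (P := fun i => m ≤ H i) h1 h2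
    omega
  have hnv : ∀ a u b, a < u → u < b → H u < H a → H u < H b → m ≤ H u := fun a u b h1 h2 h3 h4 =>
    hmin u ⟨a, b, h1, h2, h3, h4⟩
  refine ⟨s, v0 - 1, e, q, by omega, by omega, by omega, ?_, ?_⟩
  · rw [Nat.sub_add_cancel (by omega)]; exact hHq
  rw [Nat.sub_add_cancel (by omega : 1 ≤ v0), ← hm]
  have hw := S_contig_ge H j (e - s)
    (fun i => if i < s then H i else if i = s then m else H (i + (e - s))) (by
    intro i hi u h1 h2
    split_ifs with c1 c2
    · by_contra hlt
      rw [not_le] at hlt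
      have h3 := hs2 i c1
      have h5 : i ≠ u := by rintro rfl; exact lt_irrefl _ hlt
      have := hnv i u e (by omega) (by omega) hlt (by omega)
      omega
    · by_contra hlt
      rw [not_le] at hlt
      rw [c2] at h1 h2
      have h5 : s ≠ u := fun hc => by rw [← hc] at hlt; omega
      have h6 : u ≠ e := fun hc => by rw [hc] at hlt; omega
      have := hnv s u e (by omega) (by omega) (by omega) (by omega)
      omega
    · by_contra hlt
      rw [not_le] at hlt
      have h3 : H (i + (e - s)) < m := he4 _ (by omega) hi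
      have h5 : u ≠ i + (e - s) := by rintro rfl; omega
      have := hnv s u (i + (e - s)) (by omega) (by omega) (by omega) hlt
      omega)
  refine le_trans ?_ hw
  have hle : s + 1 ≤ j + 1 - (e - s) := by omega
  rw [← sum_range_add_sum_Ico _ hle, sum_range_succ]
  refine Nat.add_le_add (Nat.add_le_add (sum_le_sum fun i hi => ?_) ?_) ?_
  · rw [mem_range] at hi
    rw [if_pos hi]
  · rw [if_neg (lt_irrefl s), if_pos rfl]
  · have h1 : ∑ i ∈ Ico (s + 1) (j + 1 - (e - s)),
        (if i < s then H i else if i = s then m else H (i + (e - s)))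
        = ∑ i ∈ Ico (s + 1) (j + 1 - (e - s)), H (i + (e - s)) := by
      refine sum_congr rfl fun i hi => ?_
      rw [mem_Ico] at hi
      rw [if_neg (by omega), if_neg (by omega)]
    rw [h1, sum_Ico_add' H (s + 1) (j + 1 - (e - s)) (e - s)]
    exact le_of_eq (by congr 2 <;> omega)

/-! ## The theorem -/

/-- **Answer to Q1: no.**  Let `A` be a commutative local ring that is an algebra over a field `k`,
let `ℓ` be an element of its maximal ideal `𝔪`, let `𝔪^{j+1} = 0`, and let `P` be the Jordan type of
the multiplication by `ℓ` (so that `A` has a finite Jordan basis, and `A` is finite-dimensional).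
Then `P` does not strictly dominate the contiguous partition of `H(A) = (h_0, …, h_j)`.
No Gorenstein hypothesis is needed, and `ℓ` need not be a linear form. -/
theorem result {k A : Type*} [Field k] [CommRing A] [IsLocalRing A] [Algebra k A]
    (l : A) (hl : l ∈ maximalIdeal A) (j : ℕ) (hj : maximalIdeal A ^ (j + 1) = ⊥)
    (P : Multiset ℕ) (hP : IsJordanType (LinearMap.mulLeft k l) P) :
    ¬ StrictlyDominates P (contig j (hilb k A)) := by
  have hfin : Module.Finite k A := by
    obtain ⟨n, b, e, -⟩ := hP
    exact Module.Finite.of_basis e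
  rintro ⟨hdom, hne⟩
  set H := hilb k A with hH
  have hc0 : ∀ i, j < i → c k A i = 0 := by
    intro i hi
    have h1 : c k A i ≤ c k A (j + 1) := c_anti k A hi
    have h2 : c k A (j + 1) = 0 := by
      have : M k A (j + 1) = ⊥ := by
        ext x; rw [mem_M, hj]; rfl
      rw [c, this, finrank_bot]
    omega
  have h0 : ∀ i, j < i → H i = 0 := by
    intro i hi
    have h1 := hilb_add k A i
    have h2 := hc0 i hi
    rw [← hH] at h1
    omega
  have hsum : ∀ u, ∑ i ∈ Ico u (j + 1), H i = c k A u := by
    intro u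
    by_cases hu : u ≤ j + 1
    · have h1 := sum_range_add_sum_Ico H hu
      have h2 := sum_hilb k A u
      have h3 := sum_hilb k A (j + 1)
      have h4 := hc0 (j + 1) (by omega)
      rw [← hH] at h2 h3
      omega
    · rw [Ico_eq_empty (by omega), sum_empty, hc0 u (by omega)]
  have hlow : ∀ m, S m (contig j H)
      ≤ Module.finrank k (LinearMap.range (LinearMap.mulLeft k l ^ m)) := fun m =>
    le_trans (S_le_of_dominates hdom m) (S_le_finrank _ hP m)
  by_cases hv : ∃ v, IsValley H v
  · obtain ⟨s, v, e, q, h1, h2, h3, h4, h5⟩ := valley_bound H j h0 hv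
    have h6 := rank_lt k hl h1 h2 h3 h4
    have h7 := hlow (e - s)
    have h8 := sum_hilb k A s
    have h9 : hilb k A (v + 1) + c k A (v + 2) = c k A (v + 1) := hilb_add k A (v + 1)
    rw [hsum] at h5
    rw [← hH] at h8 h9
    omega
  · push Not at hv
    apply hne
    refine eq_of_S ?_ (zero_notMem_contig H j) fun m => ?_
    · obtain ⟨n, b, e, hb, rfl, -⟩ := hP
      intro h
      rw [Multiset.mem_map] at h
      obtain ⟨i, -, hi⟩ := h
      have := hb i
      omega
    · refine le_antisymm ?_ (S_le_of_dominates hdom m)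
      obtain ⟨t, ht⟩ := unimodal_bound H j m h0 hv
      have h1 := rank_le k hl m t
      have h2 := S_le_finrank _ hP m
      have h3 := sum_hilb k A t
      rw [hsum] at ht
      rw [← hH] at h3
      omega

end Pool.Agent.Results.MP_728180_al.NoStrictDominance
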